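import Pool.Agent.Q107.Basic.Quot

set_option autoImplicit false

namespace Pool.Agent.Results.MP_42b5d3_al.NilMatrixRing

open Pool.Agent.Q107.BasicRing Pool.Agent.Helper824.GS

universe u

/-- The ring `R` is basic: the left condition holds for `R` and for its opposite ring (left
modules over the opposite ring are right modules over `R`). -/
def IsBasic (R : Type) [Ring R] : Prop := LeftBasic.{u, 0} R ∧ LeftBasic.{u, 0} Rᵐᵒᵖ

/-- Every finite subset lies in a subring which is left and right noetherian. -/
def FNoetherian (R : Type) [Ring R] : Prop :=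
  ∀ s : Finset R, ∃ S : Subring R, (∀ x ∈ s, x ∈ S) ∧ IsNoetherianRing S ∧ IsNoetherianRing Sᵐᵒᵖ

theorem result : ∃ (R : Type) (_ : Ring R), IsBasic.{u} R ∧ ¬ FNoetherian R := by
  classical
  obtain ⟨R, hR, h2, hnil⟩ := exists_rel (K := ZMod 2)
  refine ⟨Q R, inferInstance, ⟨leftBasic (matAlg R hnil), leftBasic (matAlg_op (matAlg R hnil))⟩, ?_⟩
  intro hF
  obtain ⟨S, hS, hN, -⟩ := hF (Finset.univ.image fun i : Fin 3 => q R (mon (FreeMonoid.of i)))
  have hK : ∀ c : ZMod 2, c = 0 ∨ c = 1 := by decide
  have htop := subring_top R hK S (fun i => hS _ (by simp))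
  subst htop
  exact not_noetherian R hR h2 hnil (isNoetherianRing_of_ringEquiv _ (Subring.topEquiv))

end Pool.Agent.Results.MP_42b5d3_al.NilMatrixRing
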